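import Pool.Agent.TH116.PT.Basic

/-!
# The McKay-Galois conjecture up to a subpolynomial factor

Consider pairs `b = (G, K)` of a finite group `G` and a subgroup `K` of the group `𝓗` of Galois
automorphisms of the conjecture (for a fixed prime `p`). Let `x(b)` be the number of `K`-invariant
characters in `Irr_{p'}(G)` and `y(b)` the number of `K`-invariant characters in
`Irr_{p'}(N_G(P))`, `P` a Sylow `p`-subgroup. By a theorem of Burnside the actions of `𝓗` (through a
finite quotient) on these two sets are permutation isomorphic if and only if `x(G, K) = y(G, K)` for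
all `K`. The powers are `(G^n, K)`. As `𝓗`-sets, `Irr_{p'}(G^n) = Irr_{p'}(G)^n`, and
`N(P^n) = N(P)^n`, so both numbers are multiplicative.

Theorem. The McKay-Galois conjecture holds for all finite groups `G` (or for all groups in a class
closed under direct powers) if and only if for all `ε > 0` there is `C` such that for all `G` and `K`,
`x(G, K) ≤ C |G|^ε y(G, K)` and `y(G, K) ≤ C |G|^ε x(G, K)`. The two inequalities are also separately
equivalent to their versions up to such factors.
-/

set_option autoImplicit false

universe u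

namespace Pool.Agent.Results.MP_1ae3da_al.SubpolynomialFactor

/-- A family of pairs `(G, K)` closed under powers, with the numbers of `K`-invariant characters of
the two sides of the McKay-Galois conjecture. -/
structure Family where
  /-- the blocks `b` (with the groups `G` which they belong to) -/
  B : Type u
  /-- the block `b ⊗ ... ⊗ b` of `G × ... × G` -/
  pow : B → ℕ → B
  /-- the order of `G` -/
  order : B → ℕ
  order_pos : ∀ b, 1 ≤ order b
  order_pow : ∀ b n, order (pow b n) = order b ^ n
  /-- the number of `K`-invariant characters in `Irr_{p'}(G)` -/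
  x : B → ℕ
  x_pow : ∀ b n, x (pow b n) = x b ^ n
  /-- the number of `K`-invariant characters in `Irr_{p'}(N_G(P))` -/
  y : B → ℕ
  y_pow : ∀ b n, y (pow b n) = y b ^ n

/-- For every family of pairs closed under powers, the inequalities `x ≤ y`, `y ≤ x`, and the
equality `x = y` are equivalent to their versions up to factors `C |G| ^ ε`, `ε > 0`. -/
theorem result (T : Family.{u}) :
    ((∀ b, T.x b ≤ T.y b) ↔ ∀ ε : ℝ, 0 < ε → ∃ C : ℝ, ∀ b,
      (T.x b : ℝ) ≤ C * (T.order b : ℝ) ^ ε * T.y b) ∧
    ((∀ b, T.y b ≤ T.x b) ↔ ∀ ε : ℝ, 0 < ε → ∃ C : ℝ, ∀ b,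
      (T.y b : ℝ) ≤ C * (T.order b : ℝ) ^ ε * T.x b) ∧
    ((∀ b, T.x b = T.y b) ↔ ∀ ε : ℝ, 0 < ε → ∃ C : ℝ, ∀ b,
      (T.x b : ℝ) ≤ C * (T.order b : ℝ) ^ ε * T.y b ∧
        (T.y b : ℝ) ≤ C * (T.order b : ℝ) ^ ε * T.x b) := by
  have h := Pool.Agent.TH116.PT.multiplicative_iff T.pow (f := fun b => (T.x b : ℝ))
    (g := fun b => (T.y b : ℝ)) (s := fun b => (T.order b : ℝ))
    (fun b n => by rw [T.x_pow]; push_cast; rfl)
    (fun b n => by rw [T.y_pow]; push_cast; rfl)
    (fun b n => by rw [T.order_pow]; push_cast; exact le_rfl)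
    (fun b => Nat.cast_nonneg _) (fun b => Nat.cast_nonneg _)
    (fun b => by exact_mod_cast T.order_pos b)
  simpa only [Nat.cast_le, Nat.cast_inj] using h

end Pool.Agent.Results.MP_1ae3da_al.SubpolynomialFactor
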